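import Pool.Agent.MP_3ee8cb_gt.CZE.Ang
import Pool.Agent.MP_3ee8cb_gt.D3SC.Cf

/-! A continuous conjugacy that respects the fibres comes from an isometry. -/

namespace Pool.Agent.MP_3ee8cb_gt.D3

open Set Filter Topology
open CR (UT MinP tm)
open scoped RealInnerProductSpace

noncomputable section

namespace En0

variable {m : MF}

theorem ex0 (ok : m.OK) (hj : m.Jac) (x : V) : (m.Z 1 (x, 0)).1 = x := by
  have := hj.scale 1 0 x 0
  rw [zero_smul, zero_mul, ok.zero] at this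
  rw [this]

theorem c_ex (ok : m.OK) (x : V) : ContDiff ℝ 1 fun b => (m.Z 1 (x, b)).1 :=
  (ok.cZ.comp (contDiff_const.prodMk (contDiff_const.prodMk contDiff_id))).fst

theorem d_ex (ok : m.OK) (hj : m.Jac) (x : V) :
    HasFDerivAt (fun b => (m.Z 1 (x, b)).1) (m.R x) 0 := by
  have d := ((c_ex ok x).differentiable one_ne_zero 0).hasFDerivAt
  refine d.congr_fderiv (ContinuousLinearMap.ext fun b => ?_)
  have h3 : HasDerivAt (fun r : ℝ => r • b) b 0 := by
    simpa using (hasDerivAt_id (0 : ℝ)).smul_const b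
  have h1 := (ok.ode (x, b) 0).fst
  rw [ok.zero] at h1
  have e : (fun r : ℝ => (m.Z r (x, b)).1) = fun r => (m.Z 1 (x, r • b)).1 :=
    funext fun r => by rw [hj.scale, mul_one]
  have h2 : HasDerivAt (fun r : ℝ => (m.Z r (x, b)).1) (m.R x b) 0 := h1
  rw [e] at h2
  exact (d.comp_hasDerivAt_of_eq 0 h3 (zero_smul ℝ b).symm).unique h2

theorem lin {L : V → V} (h : ∀ a b, ⟪L a, L b⟫ = ⟪a, b⟫) : ∃ A : V →L[ℝ] V, ∀ a, A a = L a := by
  have k : ∀ (r : ℝ) a b, L (r • a + b) = r • L a + L b := fun r a b => by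
    rw [← sub_eq_zero, ← inner_self_eq_zero (𝕜 := ℝ)]
    simp only [inner_sub_left, inner_sub_right, inner_add_left, inner_add_right,
      real_inner_smul_left, real_inner_smul_right, h]
    ring
  have z : L 0 = 0 := by rw [← inner_self_eq_zero (𝕜 := ℝ), h, inner_zero_left]
  exact ⟨LinearMap.toContinuousLinearMap ⟨⟨L, fun a b => by simpa using k 1 a b⟩,
    fun r a => by simpa [z] using k r a 0⟩, fun _ => rfl⟩

end En0

/-- The end for a conjugacy that is only continuous. -/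
def SEND0 : Prop := On2 fun g h C C' _ _ _ _ _ _ Φ Ψ ρ F => ∀ m m' : MF, m.OK → m.Jac →
  m'.OK → m'.Jac → Lk g C Φ m → Lk h C' Ψ m' → MinP h Ψ →
  (∀ p q : UT g, p.1.1 = q.1.1 → (F p).1.1 = (F q).1.1) → Iso g h ρ

open SC En0 in
theorem sEND0 : SEND0 := by
  intro g h C C' Γ Λ _ _ _ _ Φ Ψ ρ F qg qh _ _ _ _ cj m m' ok hj ok' hj' lk lk' mn ft
  have ex : ∀ x a : V, ∃ p : UT g, (x, a) = dn m ‖a‖ p := fun x a => by
    rcases eq_or_ne a 0 with rfl | ha
    · obtain ⟨p, hp, -⟩ := qg.rp.hr x x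
      exact ⟨p, by simp [dn, hp]⟩
    · exact exists_dn ok lk.orth (z := (x, a)) ha
  choose P hP using ex
  have P1 : ∀ x a, (P x a).1.1 = x := fun x a => (congrArg Prod.fst (hP x a)).symm
  let f : V → V := fun x => (F (P x 0)).1.1
  have hf : ∀ p, f p.1.1 = (F p).1.1 := fun p => ft _ _ (P1 _ _)
  have key : ∀ x, ContDiffAt ℝ 1 f x ∧
      ∀ u v, h (f x) (fderiv ℝ f x u) (fderiv ℝ f x v) = g x u v := fun x => by
    have fx : ∀ a, (F (P x a)).1.1 = f x := fun a => by rw [← hf, P1]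
    have inn : ∀ a b, ⟪(dn m' ‖a‖ (F (P x a))).2, (dn m' ‖b‖ (F (P x b))).2⟫ = ⟪a, b⟫ := by
      intro a b
      have := CZE.inn qg.rp cj qh.rp mn ft (P x a) (P x b)
        (by rw [P1, P1])
      have e1 : a = _ := congrArg Prod.snd (hP x a)
      have e2 : b = _ := congrArg Prod.snd (hP x b)
      rw [fx, P1] at this
      conv_rhs => rw [e1, e2]
      simp only [dn, real_inner_smul_left, real_inner_smul_right, fx, P1]
      rw [← lk'.orth (f x), ← lk.orth x, ok.RS, ok.RS, ok'.RS, ok'.RS, this]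
    obtain ⟨A, hA⟩ := lin inn
    have e : ∀ a, f (m.Z 1 (x, a)).1 = (m'.Z 1 (f x, A a)).1 := fun a => by
      have : (f x, A a) = dn m' ‖a‖ (F (P x a)) := Prod.ext (fx a).symm (hA a)
      rw [this, hP x a, Z_dn hj lk, Z_dn hj' lk', ← cj.flow]
      exact hf _
    let R : V ≃L[ℝ] V := .equivOfInverse (m.R x) (m.S x) (ok.SR x) (ok.RS x)
    have d : HasFDerivAt (fun b => (m.Z 1 (x, b)).1) (R : V →L[ℝ] V) 0 := d_ex ok hj x
    have c := (c_ex ok x).contDiffAt (x := 0)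
    have i1 := c.to_localInverse d one_ne_zero
    have i2 := (c.hasStrictFDerivAt' d one_ne_zero).eventually_right_inverse
    rw [ex0 ok hj] at i1 i2
    have cf : ContDiffAt ℝ 1 f x :=
      (((c_ex ok' (f x)).comp A.contDiff).contDiffAt.comp x i1).congr_of_eventuallyEq (by
        filter_upwards [i2] with y hy
        exact (congrArg f hy).symm.trans (e _))
    have d0 : HasFDerivAt f (fderiv ℝ f x) (m.Z 1 (x, 0)).1 := by
      rw [ex0 ok hj]
      exact (cf.differentiableAt one_ne_zero).hasFDerivAt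
    have d1 := d0.comp 0 (d_ex ok hj x)
    have d2 := HasFDerivAt.comp 0 ((map_zero A).symm ▸ d_ex ok' hj' (f x)) A.hasFDerivAt
    have d3 : ∀ a, fderiv ℝ f x (m.R x a) = m'.R (f x) (A a) := fun a =>
      DFunLike.congr_fun (d1.unique (d2.congr_of_eventuallyEq (.of_forall e))) a
    refine ⟨cf, fun u v => ?_⟩
    rw [← ok.RS x u, ← ok.RS x v, d3, d3, lk'.orth, lk.orth, hA, hA, inn]
  refine ⟨f, ⟨fun x y e => ?_, fun y => ?_⟩, contDiff_iff_contDiffAt.2 fun x => (key x).1,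
    fun x => (key x).2, fun γ x => ?_⟩
  · have := CZE.dist qg.rp cj qh.rp mn ft (P x 0) (P y 0)
    rw [show (F (P x 0)).1.1 = (F (P y 0)).1.1 from e, qh.rp.db.refl, P1, P1] at this
    obtain ⟨p, h1, h2⟩ := qg.rp.hr x y
    rwa [← this, qg.rp.flow.zero, h1] at h2
  · obtain ⟨q, hq, -⟩ := qh.rp.hr y y
    exact ⟨(F.symm q).1.1, by rw [hf, F.apply_symm_apply, hq]⟩
  · have := congrArg Prod.fst (cj.equi γ (P x 0) ⟨tm γ (P x 0).1,
      (qg.rp.deck.iso γ _ _ _).trans (P x 0).2⟩ rfl)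
    rw [← hf] at this
    simpa only [tm, P1] using this

end

end Pool.Agent.MP_3ee8cb_gt.D3
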