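import Pool.Agent.MP_3ee8cb_gt.LV.Spec

/-! A conjugacy that respects the fibres preserves distances and angles. -/

namespace Pool.Agent.MP_3ee8cb_gt.CZE

open Set Filter Topology Asymptotics CR LV

variable {n : ℕ} {g h : Met n} {Γ Λ : Type} [Group Γ] [Group Λ] [MulAction Γ (E n)]
  [MulAction Λ (E n)] {Φ : ℝ → UT g → UT g} {Ψ : ℝ → UT h → UT h} {ρ : Γ ≃* Λ}
  {F : UT g ≃ₜ UT h}

/-- The angle is read off the distance. -/
theorem ang (rp : RP g Γ Φ) (p q : UT g) (e : p.1.1 = q.1.1) :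
    Tendsto (fun t => t⁻¹ * dd g (Φ t p).1.1 (Φ t q).1.1) (𝓝[>] 0)
      (𝓝 √(g p.1.1 (q.1.2 - p.1.2) (q.1.2 - p.1.2))) := by
  have d := (rp.flow.vel q 0).sub (rp.flow.vel p 0)
  have c : ∀ u : UT g, Tendsto (fun t => ‖(Φ t u).1.1 - u.1.1‖) (𝓝[>] 0) (𝓝 0) := fun u => by
    have := ((rp.flow.vel u 0).continuousAt.tendsto.sub_const u.1.1).norm
    rw [rp.flow.zero, sub_self, norm_zero] at this
    exact this.mono_left nhdsWithin_le_nhds
  have d1 := d.tendsto_slope_zero_right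
  simp only [zero_add, rp.flow.zero, Pi.sub_apply, e, sub_self, sub_zero] at d1
  set δ := fun t => (Φ t q).1.1 - (Φ t p).1.1
  have N : Continuous fun v : E n => √(g p.1.1 v v) := by fun_prop
  have d2 := (N.tendsto _).comp d1
  have hN : ∀ t : ℝ, 0 < t → √(g p.1.1 (t⁻¹ • δ t) (t⁻¹ • δ t)) =
      t⁻¹ * √(g p.1.1 (δ t) (δ t)) := fun t ht => by
    simp only [map_smul, smul_apply, smul_eq_mul]
    rw [← mul_assoc, Real.sqrt_mul (mul_self_nonneg _), Real.sqrt_mul_self (inv_pos.2 ht).le]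
  have d0 : Tendsto (fun t => √(g p.1.1 (δ t) (δ t))) (𝓝[>] 0) (𝓝 0) := by
    have := (N.tendsto _).comp (d.continuousAt.tendsto.mono_left (nhdsWithin_le_nhds (s := Ioi 0)))
    simp only [Pi.sub_apply, rp.flow.zero, ← e, sub_self, map_zero, Real.sqrt_zero] at this
    exact this
  have o : (fun t => t⁻¹ * dd g (Φ t p).1.1 (Φ t q).1.1 - √(g p.1.1 (t⁻¹ • δ t) (t⁻¹ • δ t)))
      =o[𝓝[>] 0] fun t => √(g p.1.1 (t⁻¹ • δ t) (t⁻¹ • δ t)) := by
    refine isLittleO_iff.2 fun ε hε => ?_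
    obtain ⟨r, hr, h1⟩ := rp.low p.1.1 ε hε
    obtain ⟨r', hr', h2⟩ := rp.db.upp p.1.1 ε hε
    filter_upwards [(c p).eventually_le_const hr, (c p).eventually_le_const hr',
      (c q).eventually_le_const hr', d0.eventually_le_const hr, self_mem_nhdsWithin]
      with t a1 a2 a3 a4 ht
    have b1 := h1 _ (Φ t q).1.1 a1
    have b2 := (rp.db.le_seg _ _).trans (h2 _ _ a2 (e ▸ a3))
    rw [min_eq_right a4] at b1
    have i : 0 < t⁻¹ := inv_pos.2 ht
    rw [hN t ht, ← mul_sub, norm_mul, norm_mul, mul_left_comm, Real.norm_of_nonneg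
      (Real.sqrt_nonneg _)]
    exact mul_le_mul_of_nonneg_left (abs_le.2 ⟨by linarith, by linarith⟩) (norm_nonneg _)
  have := (o.tendsto_zero_of_tendsto d2).add d2
  rw [zero_add] at this
  exact this.congr fun t => sub_add_cancel _ _

/-- Distances are preserved. -/
theorem dist (rp : RP g Γ Φ) (cj : CJ g h Φ Ψ ρ F) (r' : RP h Λ Ψ) (mn : MinP h Ψ)
    (ft : ∀ p q : UT g, p.1.1 = q.1.1 → (F p).1.1 = (F q).1.1) (p q : UT g) :
    dd h (F p).1.1 (F q).1.1 = dd g p.1.1 q.1.1 := by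
  obtain ⟨u, h1, h2⟩ := rp.hr p.1.1 q.1.1
  have := mn (F u) 0 (dd g p.1.1 q.1.1)
  rwa [r'.flow.zero, ← cj.flow, ft _ _ h1, ft _ _ h2, zero_sub, abs_neg,
    abs_of_nonneg (rp.db.nonneg _ _)] at this

/-- Angles are preserved. -/
theorem inn (rp : RP g Γ Φ) (cj : CJ g h Φ Ψ ρ F) (r' : RP h Λ Ψ) (mn : MinP h Ψ)
    (ft : ∀ p q : UT g, p.1.1 = q.1.1 → (F p).1.1 = (F q).1.1) (p q : UT g)
    (e : p.1.1 = q.1.1) : h (F p).1.1 (F p).1.2 (F q).1.2 = g p.1.1 p.1.2 q.1.2 := by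
  have k : ∀ (g : Met n), Riem g → ∀ p q : UT g, p.1.1 = q.1.1 →
      0 ≤ g p.1.1 (q.1.2 - p.1.2) (q.1.2 - p.1.2) ∧
      g p.1.1 (q.1.2 - p.1.2) (q.1.2 - p.1.2) = 2 - 2 * g p.1.1 p.1.2 q.1.2 := by
    intro g r p q e
    refine ⟨?_, ?_⟩
    · rcases eq_or_ne (q.1.2 - p.1.2) 0 with z | z
      · simp [z]
      · exact (r.pos _ _ z).le
    · have := q.2
      rw [← e] at this
      simp only [map_sub, sub_apply, this, p.2, r.symm _ q.1.2 p.1.2]
      ring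
  have a := ang r' (F p) (F q) (ft p q e)
  simp only [← cj.flow, dist rp cj r' mn ft] at a
  have b := (Real.sqrt_inj (k h r'.riem _ _ (ft p q e)).1 (k g rp.riem p q e).1).1
    (tendsto_nhds_unique a (ang rp p q e))
  rw [(k h r'.riem _ _ (ft p q e)).2, (k g rp.riem p q e).2] at b
  linarith

end Pool.Agent.MP_3ee8cb_gt.CZE
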